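import Pool.Agent.Helper54.Clo.Ex2

set_option autoImplicit false

/-!
# The asymptotic form of the bound
-/

namespace Pool.Agent.Helper54.Clo

open Filter

lemma asym (C α η c : ℝ) (hη : 0 < η) (hc : 0 < c) :
    ∃ n₀ : ℕ, ∀ (k : ℕ) (f : (Fin k → Bool) → Bool), ¬ OddSum f →
      ∀ (n m L : ℕ) (lab : Fin n → Fin m → Bool) (G : SimpleGraph (Fin n)), n₀ ≤ n →
        Function.Injective lab → (m : ℝ) ≤ C * Real.logb 2 n →
        (∀ x, UnionOfClosed f L (lab '' G.neighborSet x)) → 4 < G.egirth →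
        c * (n : ℝ) ^ (1 + α) ≤ Nat.card G.edgeSet → (n : ℝ) ^ (α - η) ≤ L := by
  set C' : ℝ := max C 1 with hC'
  have hC'1 : 1 ≤ C' := le_max_right _ _
  have hl2 : 0 < Real.log 2 := Real.log_pos (by norm_num)
  have hε : 0 < η * Real.log 2 / (2 * C') := by positivity
  obtain ⟨q, K, hq, hK, hphi⟩ := phi_le _ hε
  have htend : Tendsto (fun n : ℕ => (n : ℝ) ^ (η / 2)) atTop atTop :=
    (tendsto_rpow_atTop (by positivity)).comp tendsto_natCast_atTop_atTop
  obtain ⟨n₁, hn₁⟩ := (htend.eventually_ge_atTop (K / (2 * c))).exists_forall_of_atTop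
  refine ⟨max n₁ 1, ?_⟩
  intro k f hf n m L lab G hn hlab hm hN hg hE
  have hn1 : n₁ ≤ n := (le_max_left _ _).trans hn
  have hn0 : 1 ≤ n := (le_max_right _ _).trans hn
  have hnR : (1 : ℝ) ≤ n := by exact_mod_cast hn0
  have hnpos : (0 : ℝ) < n := by linarith
  have hb := bound f hf lab hlab G L q hq hN hg
  rw [Fintype.card_fin] at hb
  have hb' : 2 * (Nat.card G.edgeSet : ℝ) ≤ L * (n * Phi m q) := by exact_mod_cast hb
  have hlogn : 0 ≤ Real.log n := Real.log_nonneg hnR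
  have hm' : (m : ℝ) ≤ C' * (Real.log n / Real.log 2) := by
    have h1 : Real.logb 2 n = Real.log n / Real.log 2 := rfl
    rw [h1] at hm
    refine hm.trans (mul_le_mul_of_nonneg_right (le_max_left _ _) (by positivity))
  have hexp : Real.exp (η * Real.log 2 / (2 * C') * m) ≤ (n : ℝ) ^ (η / 2) := by
    rw [Real.rpow_def_of_pos hnpos]
    apply Real.exp_le_exp.2
    calc η * Real.log 2 / (2 * C') * m
        ≤ η * Real.log 2 / (2 * C') * (C' * (Real.log n / Real.log 2)) :=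
          mul_le_mul_of_nonneg_left hm' (by positivity)
      _ = Real.log n * (η / 2) := by field_simp
  have hP : (Phi m q : ℝ) ≤ K * (n : ℝ) ^ (η / 2) :=
    (hphi m).trans (mul_le_mul_of_nonneg_left hexp (by linarith))
  have hL0 : (0 : ℝ) ≤ L := Nat.cast_nonneg L
  have h2 : 2 * (c * (n : ℝ) ^ (1 + α)) ≤ L * (n * (K * (n : ℝ) ^ (η / 2))) := by
    calc 2 * (c * (n : ℝ) ^ (1 + α)) ≤ 2 * (Nat.card G.edgeSet : ℝ) := by linarith
      _ ≤ L * (n * Phi m q) := hb'
      _ ≤ L * (n * (K * (n : ℝ) ^ (η / 2))) := by gcongr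
  have h3 : (n : ℝ) ^ (1 + α) = n * ((n : ℝ) ^ (α - η) * ((n : ℝ) ^ (η / 2) * (n : ℝ) ^ (η / 2))) := by
    rw [← Real.rpow_add hnpos, ← Real.rpow_add hnpos, Real.rpow_add hnpos, Real.rpow_one]
    congr 2; ring
  rw [h3] at h2
  have hx : K / (2 * c) ≤ (n : ℝ) ^ (η / 2) := hn₁ n hn1
  set x := (n : ℝ) ^ (η / 2) with hxdef
  set y := (n : ℝ) ^ (α - η) with hydef
  have hxpos : 0 < x := Real.rpow_pos_of_pos hnpos _
  have hypos : 0 < y := Real.rpow_pos_of_pos hnpos _
  have hK' : K ≤ 2 * c * x := by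
    rw [div_le_iff₀ (by positivity)] at hx; linarith
  have h4 : (2 * c * x) * y ≤ K * L := by
    have h5 : ((2 * c * x) * y) * (n * x) ≤ (K * L) * (n * x) := by nlinarith
    exact le_of_mul_le_mul_right h5 (by positivity)
  have h6 : (2 * c * x) * y ≤ (2 * c * x) * L :=
    h4.trans (mul_le_mul_of_nonneg_right hK' hL0)
  exact le_of_mul_le_mul_left h6 (by positivity)

end Pool.Agent.Helper54.Clo
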