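import Pool.Agent.Helper54.Clo.Main

set_option autoImplicit false

/-!
# Examples: graphs whose neighbourhoods are affine subspaces over the field with two elements
-/

namespace Pool.Agent.Helper54.Clo

open Finset

/-- closed under the sum of three members -/
def Aff {d : ℕ} (A : Set (Fin d → Bool)) : Prop :=
  ∀ u ∈ A, ∀ v ∈ A, ∀ w ∈ A, (fun i => xor (xor (u i) (v i)) (w i)) ∈ A

lemma aff_closed {k d : ℕ} {f : (Fin k → Bool) → Bool} (hf : OddSum f) {A : Set (Fin d → Bool)}
    (hA : Aff A) : Closed f A := by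
  obtain ⟨I, hI, hval⟩ := hf
  intro s hs
  have key : ∀ n : ℕ, ∀ J : Finset (Fin k), J.card = 2 * n + 1 →
      (fun i => decide (Odd (J.filter fun j => s j i = true).card)) ∈ A := by
    intro n
    induction n with
    | zero =>
      intro J hJ
      obtain ⟨j, rfl⟩ := card_eq_one.1 (by simpa using hJ)
      have : (fun i => decide (Odd (({j} : Finset (Fin k)).filter fun j => s j i = true).card)) =
          s j := by
        funext i
        cases h : s j i
        · have : (({j} : Finset (Fin k)).filter fun j => s j i = true) = ∅ := by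
            ext x; simp only [mem_filter, mem_singleton, notMem_empty, iff_false]
            rintro ⟨rfl, h2⟩; rw [h] at h2; cases h2
          rw [this]; simp
        · have : (({j} : Finset (Fin k)).filter fun j => s j i = true) = {j} := by
            ext x; simp only [mem_filter, mem_singleton]
            constructor
            · rintro ⟨rfl, -⟩; rfl
            · rintro rfl; exact ⟨rfl, h⟩
          rw [this]; simp
      rw [this]; exact hs j
    | succ n ih =>
      intro J hJ
      obtain ⟨a, ha⟩ : J.Nonempty := by rw [← card_pos]; omega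
      have h1 : (J.erase a).card = 2 * n + 2 := by rw [card_erase_of_mem ha]; omega
      obtain ⟨b, hb⟩ : (J.erase a).Nonempty := by rw [← card_pos]; omega
      have h2 : ((J.erase a).erase b).card = 2 * n + 1 := by rw [card_erase_of_mem hb]; omega
      have h3 := hA _ (hs a) _ (hs b) _ (ih _ h2)
      convert h3 using 1
      funext i
      have e1 : ∀ (J' : Finset (Fin k)) (x : Fin k), x ∈ J' →
          decide (Odd (J'.filter fun j => s j i = true).card) =
          xor (s x i) (decide (Odd ((J'.erase x).filter fun j => s j i = true).card)) := by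
        intro J' x hx
        rw [filter_erase]
        cases h : s x i
        · rw [erase_eq_of_notMem (by simp [h])]; simp
        · have hmem : x ∈ J'.filter fun j => s j i = true := mem_filter.2 ⟨hx, h⟩
          have hc := card_erase_add_one hmem
          have hodd : Odd (J'.filter fun j => s j i = true).card ↔
              ¬ Odd ((J'.filter fun j => s j i = true).erase x).card := by
            rw [← hc, Nat.odd_add_one]
          by_cases h5 : Odd ((J'.filter fun j => s j i = true).erase x).card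
          · have h6 : ¬ Odd (J'.filter fun j => s j i = true).card := fun h => (hodd.1 h) h5
            simp [h5, h6]
          · have h6 := hodd.2 h5
            simp [h5, h6]
      rw [e1 J a ha, e1 _ b hb, Bool.xor_assoc]
  obtain ⟨n, hn⟩ := hI
  have := key n I hn
  convert this using 2 with i
  have := hval fun j => s j i
  cases h : f fun j => s j i
  · rw [h] at this
    symm
    rw [decide_eq_false_iff_not, ← this]; simp
  · rw [h] at this
    symm
    rw [decide_eq_true_iff, ← this]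

/-- the bipartite graph of a relation between two copies of `W` -/
def bip {W : Type*} (R : W → W → Prop) : SimpleGraph (ZMod 2 × W) where
  Adj u v := (u.1 = 0 ∧ v.1 = 1 ∧ R u.2 v.2) ∨ (u.1 = 1 ∧ v.1 = 0 ∧ R v.2 u.2)
  symm := ⟨by
    rintro u v (⟨h1, h2, h3⟩ | ⟨h1, h2, h3⟩)
    · exact Or.inr ⟨h2, h1, h3⟩
    · exact Or.inl ⟨h2, h1, h3⟩⟩
  loopless := ⟨by
    rintro u (⟨h1, h2, -⟩ | ⟨h1, h2, -⟩)
    · rw [h1] at h2; exact absurd h2 (by decide)
    · rw [h1] at h2; exact absurd h2 (by decide)⟩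

lemma bip_four {W : Type*} {R : W → W → Prop}
    (h : ∀ p p' l l', p ≠ p' → l ≠ l' → R p l → R p l' → R p' l → R p' l' → False) :
    ∀ a b, a ≠ b → ∀ x y, (bip R).Adj x a → (bip R).Adj x b → (bip R).Adj y a →
      (bip R).Adj y b → x = y := by
  intro a b hab x y h1 h2 h3 h4
  by_contra hxy
  obtain ⟨a1, a2⟩ := a
  obtain ⟨b1, b2⟩ := b
  obtain ⟨x1, x2⟩ := x
  obtain ⟨y1, y2⟩ := y
  rcases h1 with ⟨e1, e2, e3⟩ | ⟨e1, e2, e3⟩
  · rcases h2 with ⟨f1, f2, f3⟩ | ⟨f1, f2, f3⟩
    · rcases h3 with ⟨g1, g2, g3⟩ | ⟨g1, g2, g3⟩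
      · rcases h4 with ⟨k1, k2, k3⟩ | ⟨k1, k2, k3⟩
        · simp only at *
          subst e1 e2 f2 g1
          exact h x2 y2 a2 b2 (fun h => hxy (by rw [h])) (fun h => hab (by rw [h])) e3 f3 g3 k3
        · simp only at *
          rw [g1] at k1; exact absurd k1 (by decide)
      · simp only at *
        rw [e2] at g2; exact absurd g2 (by decide)
    · simp only at *
      rw [e1] at f1; exact absurd f1 (by decide)
  · rcases h2 with ⟨f1, f2, f3⟩ | ⟨f1, f2, f3⟩
    · simp only at *
      rw [e1] at f1; exact absurd f1 (by decide)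
    · rcases h3 with ⟨g1, g2, g3⟩ | ⟨g1, g2, g3⟩
      · simp only at *
        rw [e2] at g2; exact absurd g2 (by decide)
      · rcases h4 with ⟨k1, k2, k3⟩ | ⟨k1, k2, k3⟩
        · simp only at *
          rw [g1] at k1; exact absurd k1 (by decide)
        · simp only at *
          subst e1 e2 f2 g1
          exact h a2 b2 x2 y2 (fun h => hab (by rw [h])) (fun h => hxy (by rw [h])) e3 g3 f3 k3

/-- six vertices of a closed walk of length six with different vertices on each side -/
lemma bip_six {W : Type*} {R : W → W → Prop}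
    (h : ∀ p1 p2 p3 l1 l2 l3, p1 ≠ p2 → p2 ≠ p3 → p1 ≠ p3 → l1 ≠ l2 → l2 ≠ l3 → l1 ≠ l3 →
      R p1 l1 → R p2 l1 → R p2 l2 → R p3 l2 → R p3 l3 → R p1 l3 → False)
    (a b c d e f : ZMod 2 × W) (hac : a ≠ c) (hce : c ≠ e) (hae : a ≠ e) (hbd : b ≠ d)
    (hdf : d ≠ f) (hbf : b ≠ f) (h1 : (bip R).Adj a b) (h2 : (bip R).Adj b c)
    (h3 : (bip R).Adj c d) (h4 : (bip R).Adj d e) (h5 : (bip R).Adj e f)
    (h6 : (bip R).Adj f a) : False := by
  have hz : (0 : ZMod 2) ≠ 1 := by decide
  obtain ⟨a1, a2⟩ := a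
  obtain ⟨b1, b2⟩ := b
  obtain ⟨c1, c2⟩ := c
  obtain ⟨d1, d2⟩ := d
  obtain ⟨e1, e2⟩ := e
  obtain ⟨f1, f2⟩ := f
  simp only [bip] at h1 h2 h3 h4 h5 h6
  rcases h1 with ⟨rfl, rfl, r1⟩ | ⟨rfl, rfl, r1⟩
  · rcases h2 with ⟨x, -, -⟩ | ⟨-, rfl, r2⟩
    · exact hz x.symm
    rcases h3 with ⟨-, rfl, r3⟩ | ⟨x, -, -⟩
    swap
    · exact hz x
    rcases h4 with ⟨x, -, -⟩ | ⟨-, rfl, r4⟩
    · exact hz x.symm
    rcases h5 with ⟨-, rfl, r5⟩ | ⟨x, -, -⟩
    swap
    · exact hz x
    rcases h6 with ⟨x, -, -⟩ | ⟨-, -, r6⟩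
    · exact hz x.symm
    exact h a2 c2 e2 b2 d2 f2 (fun h => hac (by rw [h])) (fun h => hce (by rw [h]))
      (fun h => hae (by rw [h])) (fun h => hbd (by rw [h])) (fun h => hdf (by rw [h]))
      (fun h => hbf (by rw [h])) r1 r2 r3 r4 r5 r6
  · rcases h2 with ⟨-, rfl, r2⟩ | ⟨x, -, -⟩
    swap
    · exact hz x
    rcases h3 with ⟨x, -, -⟩ | ⟨-, rfl, r3⟩
    · exact hz x.symm
    rcases h4 with ⟨-, rfl, r4⟩ | ⟨x, -, -⟩
    swap
    · exact hz x
    rcases h5 with ⟨x, -, -⟩ | ⟨-, rfl, r5⟩
    · exact hz x.symm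
    rcases h6 with ⟨-, -, r6⟩ | ⟨x, -, -⟩
    swap
    · exact hz x
    exact h b2 d2 f2 c2 e2 a2 (fun h => hbd (by rw [h])) (fun h => hdf (by rw [h]))
      (fun h => hbf (by rw [h])) (fun h => hce (by rw [h])) (fun h => hae (by rw [h.symm]))
      (fun h => hac (by rw [h])) r2 r3 r4 r5 r6 r1

lemma four_false {V : Type*} {G : SimpleGraph V}
    (h4 : ∀ a b, a ≠ b → ∀ x y, G.Adj x a → G.Adj x b → G.Adj y a → G.Adj y b → x = y)
    {a : V} (w : G.Walk a a) (hw : w.IsCycle) (hl : w.length = 4) : False := by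
  cases w with
  | nil => simp at hl
  | @cons _ b _ h1 w =>
  cases w with
  | nil => simp at hl
  | @cons _ c _ h2 w =>
  cases w with
  | nil => simp at hl
  | @cons _ d _ h3 w =>
  cases w with
  | nil => simp at hl
  | @cons _ e _ h5 w =>
  cases w with
  | cons h6 w => simp only [SimpleGraph.Walk.length_cons] at hl; omega
  | nil =>
  have h := hw.support_nodup
  simp only [SimpleGraph.Walk.support_cons, SimpleGraph.Walk.support_nil, List.tail_cons,
    List.nodup_cons, List.mem_cons, List.not_mem_nil, or_false, not_or] at h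
  exact h.2.1.2 (h4 b d h.1.2.1 c a h2.symm h3 h1 h5.symm)

lemma six_false {V : Type*} {G : SimpleGraph V}
    (h6 : ∀ a b c d e f : V, a ≠ c → c ≠ e → a ≠ e → b ≠ d → d ≠ f → b ≠ f → G.Adj a b →
      G.Adj b c → G.Adj c d → G.Adj d e → G.Adj e f → G.Adj f a → False)
    {a : V} (w : G.Walk a a) (hw : w.IsCycle) (hl : w.length = 6) : False := by
  cases w with
  | nil => simp at hl
  | @cons _ b _ h1 w =>
  cases w with
  | nil => simp at hl
  | @cons _ c _ h2 w =>
  cases w with
  | nil => simp at hl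
  | @cons _ d _ h3 w =>
  cases w with
  | nil => simp at hl
  | @cons _ e _ h4 w =>
  cases w with
  | nil => simp at hl
  | @cons _ f _ h5 w =>
  cases w with
  | nil => simp at hl
  | @cons _ g _ h7 w =>
  cases w with
  | cons h8 w => simp only [SimpleGraph.Walk.length_cons] at hl; omega
  | nil =>
  have h := hw.support_nodup
  simp only [SimpleGraph.Walk.support_cons, SimpleGraph.Walk.support_nil, List.tail_cons,
    List.nodup_cons, List.mem_cons, List.not_mem_nil, or_false, not_or] at h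
  obtain ⟨⟨x1, x2, x3, x4, x5⟩, ⟨y1, y2, y3, y4⟩, ⟨z1, z2, z3⟩, ⟨u1, u2⟩, v1, -⟩ := h
  exact h6 a b c d e f (Ne.symm y4) y2 (Ne.symm u2) x2 z2 x4 h1 h2 h3 h4 h5 h7

lemma girth_four {V : Type*} (G : SimpleGraph V) (c : V → Bool)
    (hc : ∀ {u v}, G.Adj u v → c u ≠ c v)
    (h4 : ∀ a b, a ≠ b → ∀ x y, G.Adj x a → G.Adj x b → G.Adj y a → G.Adj y b → x = y) :
    4 < G.egirth := by
  refine lt_of_lt_of_le (show (4 : ℕ∞) < (5 : ℕ∞) by norm_num) (SimpleGraph.le_egirth.2 ?_)
  intro a w hw
  have h3 := hw.three_le_length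
  have he : Even w.length :=
    ((SimpleGraph.Coloring.mk c hc).even_length_iff_congr w).2 Iff.rfl
  have hne : w.length ≠ 4 := fun h => four_false h4 w hw h
  have : 5 ≤ w.length := by
    rcases he with ⟨r, hr⟩
    omega
  exact_mod_cast this

lemma girth_six {V : Type*} (G : SimpleGraph V) (c : V → Bool)
    (hc : ∀ {u v}, G.Adj u v → c u ≠ c v)
    (h4 : ∀ a b, a ≠ b → ∀ x y, G.Adj x a → G.Adj x b → G.Adj y a → G.Adj y b → x = y)
    (h6 : ∀ a b c d e f : V, a ≠ c → c ≠ e → a ≠ e → b ≠ d → d ≠ f → b ≠ f → G.Adj a b →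
      G.Adj b c → G.Adj c d → G.Adj d e → G.Adj e f → G.Adj f a → False) :
    6 < G.egirth := by
  refine lt_of_lt_of_le (show (6 : ℕ∞) < (7 : ℕ∞) by norm_num) (SimpleGraph.le_egirth.2 ?_)
  intro a w hw
  have h3 := hw.three_le_length
  have he : Even w.length :=
    ((SimpleGraph.Coloring.mk c hc).even_length_iff_congr w).2 Iff.rfl
  have hne : w.length ≠ 4 := fun h => four_false h4 w hw h
  have hne' : w.length ≠ 6 := fun h => six_false h6 w hw h
  have : 7 ≤ w.length := by
    rcases he with ⟨r, hr⟩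
    omega
  exact_mod_cast this

end Pool.Agent.Helper54.Clo
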