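import Pool.Agent.Helper54.Clo.Ex

set_option autoImplicit false

/-!
# Examples: the affine plane and the classical graph of girth eight
-/

namespace Pool.Agent.Helper54.Clo

open Finset

/-- bits and elements of the field with two elements -/
def bz : Bool ≃ ZMod 2 where
  toFun b := if b then 1 else 0
  invFun z := decide (z = 1)
  left_inv b := by cases b <;> decide
  right_inv z := by revert z; decide

lemma bz_xor (a b c : Bool) : bz (xor (xor a b) c) = bz a + bz b + bz c := by
  cases a <;> cases b <;> cases c <;> decide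

lemma exists_psi (W : Type) [AddCommGroup W] [Module (ZMod 2) W] [Finite W] (d : ℕ)
    (hd : Module.finrank (ZMod 2) W = d) :
    ∃ ψ : (Fin (d + 1) → Bool) ≃ ZMod 2 × W, ∀ u v w : Fin (d + 1) → Bool,
      ψ (fun i => xor (xor (u i) (v i)) (w i)) = ψ u + ψ v + ψ w := by
  have h1 : Module.finrank (ZMod 2) (Fin (d + 1) → ZMod 2) =
      Module.finrank (ZMod 2) (ZMod 2 × W) := by
    rw [Module.finrank_prod, hd]
    simp [add_comm]
  let e := LinearEquiv.ofFinrankEq (Fin (d + 1) → ZMod 2) (ZMod 2 × W) h1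
  refine ⟨(Equiv.arrowCongr (Equiv.refl _) bz).trans e.toEquiv, ?_⟩
  intro u v w
  simp only [Equiv.trans_apply, LinearEquiv.coe_toEquiv]
  rw [← map_add, ← map_add]
  congr 1
  funext i
  exact bz_xor (u i) (v i) (w i)

/-- the graph on the strings of bits -/
lemma exists_graph (W : Type) [AddCommGroup W] [Module (ZMod 2) W] [Finite W] (d : ℕ)
    (hd : Module.finrank (ZMod 2) W = d) (R : W → W → Prop) (q : ℕ)
    (hq1 : ∀ p, Nat.card {l // R p l} = q) (hq2 : ∀ l, Nat.card {p // R p l} = q)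
    (hA1 : ∀ p l1 l2 l3, R p l1 → R p l2 → R p l3 → R p (l1 + l2 + l3))
    (hA2 : ∀ l p1 p2 p3, R p1 l → R p2 l → R p3 l → R (p1 + p2 + p3) l) :
    ∃ (ψ : (Fin (d + 1) → Bool) ≃ ZMod 2 × W) (G : SimpleGraph (Fin (d + 1) → Bool)),
      (∀ s t, G.Adj s t ↔ (bip R).Adj (ψ s) (ψ t)) ∧ Nat.card G.edgeSet = Nat.card W * q ∧
      ∀ s, Aff (G.neighborSet s) := by
  classical
  have : Fintype W := Fintype.ofFinite W
  obtain ⟨ψ, hψ⟩ := exists_psi W d hd
  refine ⟨ψ, (bip R).comap ψ, fun s t => Iff.rfl, ?_, ?_⟩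
  · have h1 : Nat.card ((bip R).comap ψ).edgeSet = Nat.card (bip R).edgeSet := by
      exact Nat.card_congr (SimpleGraph.Iso.comap ψ (bip R)).mapEdgeSet
    rw [h1]
    have h2 : ∀ v, (bip R).degree v = q := by
      rintro ⟨t, p⟩
      rw [← SimpleGraph.card_neighborSet_eq_degree, ← Nat.card_eq_fintype_card]
      have ht : t = 0 ∨ t = 1 := by revert t; decide
      rcases ht with rfl | rfl
      · rw [← hq1 p]
        refine Nat.card_congr ⟨fun u => ⟨u.1.2, ?_⟩, fun l => ⟨(1, l.1), ?_⟩, ?_, ?_⟩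
        · rcases u.2 with ⟨-, -, h⟩ | ⟨h, -, -⟩
          · exact h
          · exact absurd (show (0 : ZMod 2) = 1 from h) (by decide)
        · exact Or.inl ⟨rfl, rfl, l.2⟩
        · rintro ⟨⟨u1, u2⟩, hu⟩
          rcases hu with ⟨-, h, -⟩ | ⟨h, -, -⟩
          · simp only at h; subst h; rfl
          · exact absurd (show (0 : ZMod 2) = 1 from h) (by decide)
        · rintro ⟨l, hl⟩; rfl
      · rw [← hq2 p]
        refine Nat.card_congr ⟨fun u => ⟨u.1.2, ?_⟩, fun l => ⟨(0, l.1), ?_⟩, ?_, ?_⟩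
        · rcases u.2 with ⟨h, -, -⟩ | ⟨-, -, h⟩
          · exact absurd (show (1 : ZMod 2) = 0 from h) (by decide)
          · exact h
        · exact Or.inr ⟨rfl, rfl, l.2⟩
        · rintro ⟨⟨u1, u2⟩, hu⟩
          rcases hu with ⟨h, -, -⟩ | ⟨-, h, -⟩
          · exact absurd (show (1 : ZMod 2) = 0 from h) (by decide)
          · simp only at h; subst h; rfl
        · rintro ⟨l, hl⟩; rfl
    have h3 := (bip R).sum_degrees_eq_twice_card_edges
    rw [sum_congr rfl fun v _ => h2 v] at h3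
    simp only [sum_const, card_univ, Fintype.card_prod, ZMod.card, smul_eq_mul] at h3
    rw [Nat.card_eq_fintype_card, Nat.card_eq_fintype_card, ← SimpleGraph.edgeFinset_card]
    rw [mul_assoc] at h3
    omega
  · intro s u hu v hv w hw
    show (bip R).Adj (ψ s) (ψ _)
    rw [hψ]
    have hu' : (bip R).Adj (ψ s) (ψ u) := hu
    have hv' : (bip R).Adj (ψ s) (ψ v) := hv
    have hw' : (bip R).Adj (ψ s) (ψ w) := hw
    generalize ψ s = S at *
    generalize ψ u = A at *
    generalize ψ v = B at *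
    generalize ψ w = C at *
    rcases hu' with ⟨a1, a2, a3⟩ | ⟨a1, a2, a3⟩
    · rcases hv' with ⟨b1, b2, b3⟩ | ⟨b1, b2, b3⟩
      · rcases hw' with ⟨c1, c2, c3⟩ | ⟨c1, c2, c3⟩
        · refine Or.inl ⟨a1, ?_, hA1 _ _ _ _ a3 b3 c3⟩
          simp only [Prod.fst_add, a2, b2, c2]; decide
        · rw [a1] at c1; exact absurd c1 (by decide)
      · rw [a1] at b1; exact absurd b1 (by decide)
    · rcases hv' with ⟨b1, b2, b3⟩ | ⟨b1, b2, b3⟩
      · rw [a1] at b1; exact absurd b1 (by decide)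
      · rcases hw' with ⟨c1, c2, c3⟩ | ⟨c1, c2, c3⟩
        · rw [a1] at c1; exact absurd c1 (by decide)
        · refine Or.inr ⟨a1, ?_, hA2 _ _ _ _ a3 b3 c3⟩
          simp only [Prod.fst_add, a2, b2, c2]; decide

/-- a two-colouring of the graph on the strings -/
lemma bip_color {W : Type} {d : ℕ} {R : W → W → Prop} (ψ : (Fin (d + 1) → Bool) ≃ ZMod 2 × W)
    {G : SimpleGraph (Fin (d + 1) → Bool)}
    (hG : ∀ s t, G.Adj s t ↔ (bip R).Adj (ψ s) (ψ t)) {u v : Fin (d + 1) → Bool}
    (h : G.Adj u v) : decide ((ψ u).1 = 1) ≠ decide ((ψ v).1 = 1) := by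
  rcases (hG u v).1 h with ⟨h1, h2, -⟩ | ⟨h1, h2, -⟩
  · rw [h1, h2]; decide
  · rw [h1, h2]; decide

/-- the lines `y = a x - b` over a field: the affine plane -/
def R2 {F : Type} [Field F] (p l : F × F) : Prop := p.2 + l.2 = p.1 * l.1

/-- the classical graph of girth eight -/
def R3 {F : Type} [Field F] (p l : F × F × F) : Prop :=
  p.2.1 + l.2.1 = p.1 * l.1 ∧ p.2.2 + l.2.2 = p.1 * l.2.1

lemma two_zero (s : ℕ) : (2 : GaloisField 2 s) = 0 := CharTwo.two_eq_zero

theorem plane_graph (s : ℕ) (hs : s ≠ 0) :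
    ∃ G : SimpleGraph (Fin (2 * s + 1) → Bool), 4 < G.egirth ∧ Nat.card G.edgeSet = 8 ^ s ∧
      ∀ x, Aff (G.neighborSet x) := by
  set F := GaloisField 2 s with hF
  have hcard : Nat.card F = 2 ^ s := GaloisField.card 2 s hs
  have hfr : Module.finrank (ZMod 2) (F × F) = 2 * s := by
    rw [Module.finrank_prod, GaloisField.finrank 2 hs]; ring
  have h2 : (2 : F) = 0 := two_zero s
  obtain ⟨ψ, G, hG, hcardG, hAff⟩ := exists_graph (F × F) (2 * s) hfr R2 (2 ^ s)
    (by
      rintro ⟨a, b⟩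
      rw [← hcard]
      refine Nat.card_congr ⟨fun l => l.1.1, fun x => ⟨(x, a * x - b), ?_⟩, ?_, ?_⟩
      · simp only [R2]; ring
      · rintro ⟨⟨x, y⟩, h⟩
        simp only [R2] at h
        refine Subtype.ext (Prod.ext rfl ?_)
        show a * x - b = y
        linear_combination -h
      · intro x; rfl)
    (by
      rintro ⟨x, y⟩
      rw [← hcard]
      refine Nat.card_congr ⟨fun p => p.1.1, fun a => ⟨(a, a * x - y), ?_⟩, ?_, ?_⟩
      · simp only [R2]; ring
      · rintro ⟨⟨a, b⟩, h⟩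
        simp only [R2] at h
        refine Subtype.ext (Prod.ext rfl ?_)
        show a * x - y = b
        linear_combination -h
      · intro x; rfl)
    (by
      rintro ⟨a, b⟩ ⟨x1, y1⟩ ⟨x2, y2⟩ ⟨x3, y3⟩ h1 h2' h3
      simp only [R2, Prod.fst_add, Prod.snd_add] at *
      linear_combination h1 + h2' + h3 - b * h2)
    (by
      rintro ⟨x, y⟩ ⟨a1, b1⟩ ⟨a2, b2⟩ ⟨a3, b3⟩ h1 h2' h3
      simp only [R2, Prod.fst_add, Prod.snd_add] at *
      linear_combination h1 + h2' + h3 - y * h2)
  refine ⟨G, ?_, ?_, hAff⟩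
  · refine girth_four G (fun u => decide ((ψ u).1 = 1)) (fun h => bip_color ψ hG h) ?_
    intro a b hab x y h1 h2' h3 h4
    rw [hG] at h1 h2' h3 h4
    apply ψ.injective
    refine bip_four (R := R2) ?_ (ψ a) (ψ b) (fun h => hab (ψ.injective h)) (ψ x) (ψ y) h1 h2'
      h3 h4
    rintro ⟨a, b⟩ ⟨a', b'⟩ ⟨x, y⟩ ⟨x', y'⟩ hp hl e1 e2 e3 e4
    simp only [R2] at e1 e2 e3 e4
    have h5 : (a - a') * (x - x') = 0 := by linear_combination -e1 + e2 + e3 - e4
    rcases mul_eq_zero.1 h5 with h6 | h6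
    · apply hp
      have h7 : a = a' := sub_eq_zero.1 h6
      subst h7
      have : b = b' := by linear_combination e1 - e3
      rw [this]
    · apply hl
      have h7 : x = x' := sub_eq_zero.1 h6
      subst h7
      have : y = y' := by linear_combination e1 - e2
      rw [this]
  · rw [hcardG, Nat.card_prod, hcard]
    rw [show (8 : ℕ) = 2 * 2 * 2 by norm_num, mul_pow, mul_pow]

theorem quadrangle_graph (s : ℕ) (hs : s ≠ 0) :
    ∃ G : SimpleGraph (Fin (3 * s + 1) → Bool), 6 < G.egirth ∧ Nat.card G.edgeSet = 16 ^ s ∧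
      ∀ x, Aff (G.neighborSet x) := by
  set F := GaloisField 2 s with hF
  have hcard : Nat.card F = 2 ^ s := GaloisField.card 2 s hs
  have hfr : Module.finrank (ZMod 2) (F × F × F) = 3 * s := by
    rw [Module.finrank_prod, Module.finrank_prod, GaloisField.finrank 2 hs]; ring
  have h2 : (2 : F) = 0 := two_zero s
  obtain ⟨ψ, G, hG, hcardG, hAff⟩ := exists_graph (F × F × F) (3 * s) hfr R3 (2 ^ s)
    (by
      rintro ⟨a, b, c⟩
      rw [← hcard]
      refine Nat.card_congr ⟨fun l => l.1.1, fun x => ⟨(x, a * x - b, a * (a * x - b) - c), ?_⟩,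
        ?_, ?_⟩
      · constructor
        · simp only; ring
        · simp only; ring
      · rintro ⟨⟨x, y, z⟩, h, h'⟩
        simp only at h h'
        have hy : a * x - b = y := by linear_combination -h
        refine Subtype.ext (Prod.ext rfl (Prod.ext hy ?_))
        show a * (a * x - b) - c = z
        rw [hy]
        linear_combination -h'
      · intro x; rfl)
    (by
      rintro ⟨x, y, z⟩
      rw [← hcard]
      refine Nat.card_congr ⟨fun p => p.1.1, fun a => ⟨(a, a * x - y, a * y - z), ?_⟩, ?_, ?_⟩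
      · constructor
        · simp only; ring
        · simp only; ring
      · rintro ⟨⟨a, b, c⟩, h, h'⟩
        simp only at h h'
        refine Subtype.ext (Prod.ext rfl (Prod.ext ?_ ?_))
        · show a * x - y = b
          linear_combination -h
        · show a * y - z = c
          linear_combination -h'
      · intro x; rfl)
    (by
      rintro ⟨a, b, c⟩ ⟨x1, y1, z1⟩ ⟨x2, y2, z2⟩ ⟨x3, y3, z3⟩ ⟨h1, k1⟩ ⟨h2', k2⟩ ⟨h3, k3⟩
      simp only at h1 k1 h2' k2 h3 k3
      constructor
      · simp only [Prod.fst_add, Prod.snd_add]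
        linear_combination h1 + h2' + h3 - b * h2
      · simp only [Prod.fst_add, Prod.snd_add]
        linear_combination k1 + k2 + k3 - c * h2)
    (by
      rintro ⟨x, y, z⟩ ⟨a1, b1, c1⟩ ⟨a2, b2, c2⟩ ⟨a3, b3, c3⟩ ⟨h1, k1⟩ ⟨h2', k2⟩ ⟨h3, k3⟩
      simp only at h1 k1 h2' k2 h3 k3
      constructor
      · simp only [Prod.fst_add, Prod.snd_add]
        linear_combination h1 + h2' + h3 - y * h2
      · simp only [Prod.fst_add, Prod.snd_add]
        linear_combination k1 + k2 + k3 - z * h2)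
  refine ⟨G, ?_, ?_, hAff⟩
  · -- two points on two lines
    have hfour : ∀ p p' l l' : F × F × F, p ≠ p' → l ≠ l' → R3 p l → R3 p l' → R3 p' l →
        R3 p' l' → False := by
      rintro ⟨a, b, c⟩ ⟨a', b', c'⟩ ⟨x, y, z⟩ ⟨x', y', z'⟩ hp hl ⟨e1, f1⟩ ⟨e2, f2⟩ ⟨e3, f3⟩
        ⟨e4, f4⟩
      simp only at e1 e2 e3 e4 f1 f2 f3 f4
      have h5 : (a - a') * (x - x') = 0 := by linear_combination -e1 + e2 + e3 - e4
      rcases mul_eq_zero.1 h5 with h6 | h6
      · apply hp
        have h7 : a = a' := sub_eq_zero.1 h6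
        subst h7
        have h8 : b = b' := by linear_combination e1 - e3
        have h9 : c = c' := by linear_combination f1 - f3
        rw [h8, h9]
      · apply hl
        have h7 : x = x' := sub_eq_zero.1 h6
        subst h7
        have h8 : y = y' := by linear_combination e1 - e2
        subst h8
        have h9 : z = z' := by linear_combination f1 - f2
        rw [h9]
    refine girth_six G (fun u => decide ((ψ u).1 = 1)) (fun h => bip_color ψ hG h) ?_ ?_
    · intro a b hab x y h1 h2' h3 h4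
      rw [hG] at h1 h2' h3 h4
      apply ψ.injective
      exact bip_four hfour (ψ a) (ψ b) (fun h => hab (ψ.injective h)) (ψ x) (ψ y) h1 h2' h3 h4
    · intro a b c d e f n1 n2 n3 n4 n5 n6 h1 h2' h3 h4 h5 h6
      rw [hG] at h1 h2' h3 h4 h5 h6
      refine bip_six (R := R3) ?_ (ψ a) (ψ b) (ψ c) (ψ d) (ψ e) (ψ f)
        (fun h => n1 (ψ.injective h)) (fun h => n2 (ψ.injective h))
        (fun h => n3 (ψ.injective h)) (fun h => n4 (ψ.injective h))
        (fun h => n5 (ψ.injective h)) (fun h => n6 (ψ.injective h)) h1 h2' h3 h4 h5 h6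
      rintro ⟨a1, b1, c1⟩ ⟨a2, b2, c2⟩ ⟨a3, b3, c3⟩ ⟨x1, y1, z1⟩ ⟨x2, y2, z2⟩ ⟨x3, y3, z3⟩
        p12 p23 p13 l12 l23 l13 ⟨r1, t1⟩ ⟨r2, t2⟩ ⟨r3, t3⟩ ⟨r4, t4⟩ ⟨r5, t5⟩ ⟨r6, t6⟩
      simp only at r1 t1 r2 t2 r3 t3 r4 t4 r5 t5 r6 t6
      -- first coordinates of points on a common line differ
      have ha12 : a1 ≠ a2 := by
        rintro rfl
        apply p12
        have h8 : b1 = b2 := by linear_combination r1 - r2
        have h9 : c1 = c2 := by linear_combination t1 - t2
        rw [h8, h9]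
      have ha13 : a1 ≠ a3 := by
        rintro rfl
        apply p13
        have h8 : b1 = b3 := by linear_combination r6 - r5
        have h9 : c1 = c3 := by linear_combination t6 - t5
        rw [h8, h9]
      have hx13 : x1 ≠ x3 := by
        rintro rfl
        apply l13
        have h8 : y1 = y3 := by linear_combination r1 - r6
        subst h8
        have h9 : z1 = z3 := by linear_combination t1 - t6
        rw [h9]
      -- Vandermonde
      have v1 : a1 * (x1 - x3) + a2 * (x2 - x1) + a3 * (x3 - x2) = 0 := by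
        linear_combination -r1 + r6 - r3 + r2 - r5 + r4
      have w1 : y1 - y3 = a1 * (x1 - x3) := by linear_combination r1 - r6
      have w2 : y2 - y1 = a2 * (x2 - x1) := by linear_combination r3 - r2
      have w3 : y3 - y2 = a3 * (x3 - x2) := by linear_combination r5 - r4
      have v2 : a1 * (y1 - y3) + a2 * (y2 - y1) + a3 * (y3 - y2) = 0 := by
        linear_combination -t1 + t6 - t3 + t2 - t5 + t4
      rw [w1, w2, w3] at v2
      have v3 : (a1 - a3) * (a1 - a2) * (x1 - x3) = 0 := by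
        linear_combination v2 - (a2 + a3) * v1
      rcases mul_eq_zero.1 v3 with h | h
      · rcases mul_eq_zero.1 h with h | h
        · exact ha13 (sub_eq_zero.1 h)
        · exact ha12 (sub_eq_zero.1 h)
      · exact hx13 (sub_eq_zero.1 h)
  · rw [hcardG, Nat.card_prod, Nat.card_prod, hcard]
    rw [show (16 : ℕ) = 2 * (2 * 2) * 2 by norm_num, mul_pow, mul_pow, mul_pow]

end Pool.Agent.Helper54.Clo
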