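import Mathlib

set_option autoImplicit false

/-!
# Families of sets closed under intersection, union or majority: pairs at small distance
-/

namespace Pool.Agent.Helper54.Clo

open Finset

variable {ι : Type*} [DecidableEq ι]

/-- the family is closed under intersection -/
def CapClosed (A : Finset (Finset ι)) : Prop := ∀ a ∈ A, ∀ b ∈ A, a ∩ b ∈ A

/-- the family is closed under union -/
def CupClosed (A : Finset (Finset ι)) : Prop := ∀ a ∈ A, ∀ b ∈ A, a ∪ b ∈ A

/-- the family is closed under the majority of three sets -/
def MajClosed (A : Finset (Finset ι)) : Prop :=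
  ∀ a ∈ A, ∀ b ∈ A, ∀ c ∈ A, ((a ∩ b) ∪ (b ∩ c)) ∪ (a ∩ c) ∈ A

/-- the family is closed under one of the three operations -/
def Tame3 (A : Finset (Finset ι)) : Prop := CapClosed A ∨ CupClosed A ∨ MajClosed A

/-- different members have distance at least `q` -/
def Far (q : ℕ) (A : Finset (Finset ι)) : Prop :=
  ∀ a ∈ A, ∀ b ∈ A, a ≠ b → q ≤ (symmDiff a b).card

lemma cap_chain [Fintype ι] {A : Finset (Finset ι)} (h : CapClosed A) {q : ℕ} (hq : Far q A)
    {T : Finset ι} (hT : A.Shatters T) : q * T.card ≤ Fintype.card ι := by
  have key : ∀ U : Finset ι, U ⊆ T → ∃ a ∈ A, T ∩ a = T \ U ∧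
      a.card + q * U.card ≤ Fintype.card ι := by
    intro U
    induction U using Finset.induction_on with
    | empty =>
      intro _
      obtain ⟨a, ha, h1⟩ := hT (Finset.Subset.refl T)
      exact ⟨a, ha, by rw [h1, sdiff_empty], by simpa using card_le_univ a⟩
    | insert t U ht ih =>
      intro hU
      have htT : t ∈ T := hU (mem_insert_self _ _)
      obtain ⟨a, ha, h1, h2⟩ := ih ((subset_insert _ _).trans hU)
      obtain ⟨c, hc, h3⟩ := hT (sdiff_subset : T \ {t} ⊆ T)
      have hta : t ∈ a := by
        have : t ∈ T ∩ a := by rw [h1]; exact mem_sdiff.2 ⟨htT, ht⟩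
        exact (mem_inter.1 this).2
      have htc : t ∉ c := by
        intro h4
        have : t ∈ T \ {t} := by rw [← h3]; exact mem_inter.2 ⟨htT, h4⟩
        simp at this
      refine ⟨a ∩ c, h a ha c hc, ?_, ?_⟩
      · ext x
        have e1 : x ∈ T ∩ a ↔ x ∈ T \ U := by rw [h1]
        have e3 : x ∈ T ∩ c ↔ x ∈ T \ {t} := by rw [h3]
        simp only [mem_inter, mem_sdiff, mem_insert, mem_singleton] at e1 e3 ⊢
        tauto
      · have hne : a ≠ a ∩ c := fun h4 => htc (mem_inter.1 (h4 ▸ hta)).2
        have h5 := hq a ha _ (h a ha c hc) hne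
        have h6 : symmDiff a (a ∩ c) = a \ c := by
          ext x; simp only [mem_symmDiff, mem_inter, mem_sdiff]; tauto
        rw [h6] at h5
        have h7 := card_sdiff_add_card_inter a c
        rw [card_insert_of_notMem ht]
        nlinarith
  obtain ⟨a, -, -, h2⟩ := key T (Finset.Subset.refl T)
  omega

lemma cup_chain [Fintype ι] {A : Finset (Finset ι)} (h : CupClosed A) {q : ℕ} (hq : Far q A)
    {T : Finset ι} (hT : A.Shatters T) : q * T.card ≤ Fintype.card ι := by
  have key : ∀ U : Finset ι, U ⊆ T → ∃ a ∈ A, T ∩ a = U ∧ q * U.card ≤ a.card := by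
    intro U
    induction U using Finset.induction_on with
    | empty =>
      intro _
      obtain ⟨a, ha, h1⟩ := hT (Finset.empty_subset T)
      exact ⟨a, ha, h1, by simp⟩
    | insert t U ht ih =>
      intro hU
      have htT : t ∈ T := hU (mem_insert_self _ _)
      obtain ⟨a, ha, h1, h2⟩ := ih ((subset_insert _ _).trans hU)
      obtain ⟨c, hc, h3⟩ := hT (singleton_subset_iff.2 htT : {t} ⊆ T)
      have hta : t ∉ a := by
        intro h4
        have : t ∈ T ∩ a := mem_inter.2 ⟨htT, h4⟩
        rw [h1] at this
        exact ht this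
      have htc : t ∈ c := by
        have : t ∈ T ∩ c := by rw [h3]; exact mem_singleton_self t
        exact (mem_inter.1 this).2
      refine ⟨a ∪ c, h a ha c hc, ?_, ?_⟩
      · ext x
        have e1 : x ∈ T ∩ a ↔ x ∈ U := by rw [h1]
        have e3 : x ∈ T ∩ c ↔ x ∈ ({t} : Finset ι) := by rw [h3]
        simp only [mem_inter, mem_union, mem_insert, mem_singleton] at e1 e3 ⊢
        tauto
      · have hne : a ≠ a ∪ c := fun h4 => hta (h4 ▸ mem_union_right _ htc)
        have h5 := hq a ha _ (h a ha c hc) hne
        have h6 : symmDiff a (a ∪ c) = (a ∪ c) \ a := by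
          ext x; simp only [mem_symmDiff, mem_union, mem_sdiff]; tauto
        rw [h6] at h5
        have h7 : ((a ∪ c) \ a).card + a.card = (a ∪ c).card :=
          card_sdiff_add_card_eq_card subset_union_left
        rw [card_insert_of_notMem ht]
        nlinarith
  obtain ⟨a, -, -, h2⟩ := key T (Finset.Subset.refl T)
  exact h2.trans (card_le_univ a)

lemma maj_chain [Fintype ι] {A : Finset (Finset ι)} (h : MajClosed A) {q : ℕ} (hq : Far q A)
    {T : Finset ι} (hT : A.Shatters T) : q * T.card ≤ Fintype.card ι := by
  obtain ⟨b, hb, h0⟩ := hT (Finset.Subset.refl T)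
  have key : ∀ U : Finset ι, U ⊆ T → ∃ a ∈ A, T ∩ a = U ∧
      (symmDiff a b).card + q * U.card ≤ Fintype.card ι := by
    intro U
    induction U using Finset.induction_on with
    | empty =>
      intro _
      obtain ⟨a, ha, h1⟩ := hT (Finset.empty_subset T)
      exact ⟨a, ha, h1, by simpa using card_le_univ (symmDiff a b)⟩
    | insert t U ht ih =>
      intro hU
      have htT : t ∈ T := hU (mem_insert_self _ _)
      obtain ⟨a, ha, h1, h2⟩ := ih ((subset_insert _ _).trans hU)
      obtain ⟨c, hc, h3⟩ := hT (singleton_subset_iff.2 htT : {t} ⊆ T)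
      have hta : t ∉ a := by
        intro h4
        have : t ∈ T ∩ a := mem_inter.2 ⟨htT, h4⟩
        rw [h1] at this
        exact ht this
      have htc : t ∈ c := by
        have : t ∈ T ∩ c := by rw [h3]; exact mem_singleton_self t
        exact (mem_inter.1 this).2
      have htb : t ∈ b := by
        have : t ∈ T ∩ b := by rw [h0]; exact htT
        exact (mem_inter.1 this).2
      have hmem := h a ha b hb c hc
      obtain ⟨d, hd⟩ : ∃ d, d = ((a ∩ b) ∪ (b ∩ c)) ∪ (a ∩ c) := ⟨_, rfl⟩
      rw [← hd] at hmem
      have hdx : ∀ x, x ∈ d ↔ ((x ∈ a ∧ x ∈ b) ∨ (x ∈ b ∧ x ∈ c)) ∨ (x ∈ a ∧ x ∈ c) := by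
        intro x; rw [hd]; simp only [mem_union, mem_inter]
      clear hd
      refine ⟨d, hmem, ?_, ?_⟩
      · ext x
        have e0 : x ∈ T → x ∈ b := fun hx => by
          have : x ∈ T ∩ b := by rw [h0]; exact hx
          exact (mem_inter.1 this).2
        have e1 : x ∈ T → (x ∈ a ↔ x ∈ U) := fun hx => by
          rw [← h1]; simp [hx]
        have e3 : x ∈ T → (x ∈ c ↔ x = t) := fun hx => by
          have : x ∈ T ∩ c ↔ x ∈ ({t} : Finset ι) := by rw [h3]
          simpa [hx] using this
        have e4 : x ∈ U → x ∈ T := fun hx => hU (mem_insert_of_mem hx)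
        rw [mem_inter, mem_insert, hdx]
        by_cases hx : x ∈ T
        · have f0 := e0 hx
          have f1 := e1 hx
          have f3 := e3 hx
          rw [f1, f3]
          constructor
          · rintro ⟨-, (⟨h, -⟩ | ⟨-, h⟩) | ⟨h, -⟩⟩
            · exact Or.inr h
            · exact Or.inl h
            · exact Or.inr h
          · rintro (h | h)
            · exact ⟨hx, Or.inl (Or.inr ⟨f0, h⟩)⟩
            · exact ⟨hx, Or.inl (Or.inl ⟨h, f0⟩)⟩
        · constructor
          · rintro ⟨h, -⟩; exact absurd h hx
          · rintro (h | h)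
            · exact absurd (h ▸ htT) hx
            · exact absurd (e4 h) hx
      · have htd : t ∈ d := (hdx t).2 (Or.inl (Or.inr ⟨htb, htc⟩))
        have hne : a ≠ d := fun h4 => hta (h4 ▸ htd)
        have h5 := hq a ha _ hmem hne
        have h6 : symmDiff a b = symmDiff a d ∪ symmDiff d b := by
          ext x
          have := hdx x
          simp only [mem_symmDiff, mem_union]
          by_cases x1 : x ∈ a <;> by_cases x2 : x ∈ b <;> by_cases x3 : x ∈ c <;>
            simp [x1, x2, x3] at this ⊢ <;> simp [this]
        have h7 : Disjoint (symmDiff a d) (symmDiff d b) := by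
          rw [Finset.disjoint_left]
          intro x
          have := hdx x
          simp only [mem_symmDiff]
          by_cases x1 : x ∈ a <;> by_cases x2 : x ∈ b <;> by_cases x3 : x ∈ c <;>
            simp [x1, x2, x3] at this ⊢ <;> simp [this]
        have h8 : (symmDiff a b).card = (symmDiff a d).card + (symmDiff d b).card := by
          rw [h6, card_union_of_disjoint h7]
        rw [card_insert_of_notMem ht]
        nlinarith
  obtain ⟨a, -, -, h2⟩ := key T (Finset.Subset.refl T)
  omega

/-- number of sets with at most `d` elements -/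
def Mb (m d : ℕ) : ℕ := ∑ k ∈ Iic d, m.choose k

lemma Mb_pos (m d : ℕ) : 1 ≤ Mb m d := by
  unfold Mb
  have : m.choose 0 ≤ ∑ k ∈ Iic d, m.choose k :=
    single_le_sum (f := fun k => m.choose k) (fun _ _ => Nat.zero_le _) (by simp)
  simpa using this

/-- a tame family of sets at large distance is small -/
lemma far_card [Fintype ι] {A : Finset (Finset ι)} (h : Tame3 A) {q d : ℕ} (hq : Far q A)
    (hd : Fintype.card ι < q * (d + 1)) : A.card ≤ Mb (Fintype.card ι) d := by
  have hT : ∀ T : Finset ι, A.Shatters T → T.card ≤ d := by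
    intro T hT
    have h1 : q * T.card ≤ Fintype.card ι := by
      rcases h with h | h | h
      · exact cap_chain h hq hT
      · exact cup_chain h hq hT
      · exact maj_chain h hq hT
    by_contra hcon
    have h2 : d + 1 ≤ T.card := by omega
    have h3 : q * (d + 1) ≤ q * T.card := Nat.mul_le_mul_left q h2
    omega
  have hvc : A.vcDim ≤ d := by
    unfold Finset.vcDim
    apply Finset.sup_le
    intro T hT'
    exact hT T (mem_shatterer.1 hT')
  calc A.card ≤ A.shatterer.card := card_le_card_shatterer A
    _ ≤ ∑ k ∈ Iic A.vcDim, (Fintype.card ι).choose k := card_shatterer_le_sum_vcDim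
    _ ≤ Mb (Fintype.card ι) d := by
      unfold Mb
      exact sum_le_sum_of_subset (fun x hx => by simp only [mem_Iic] at hx ⊢; omega)

/-- the number of ordered pairs of different members at distance less than `q` -/
def sp (q : ℕ) (A : Finset (Finset ι)) : ℕ :=
  ((A ×ˢ A).filter fun p => p.1 ≠ p.2 ∧ (symmDiff p.1 p.2).card < q).card

lemma tame_filter {A : Finset (Finset ι)} (h : Tame3 A) (i : ι) (p : Bool) :
    Tame3 (A.filter fun a => (decide (i ∈ a)) = p) := by
  cases p
  · rcases h with h | h | h
    · left
      intro a ha b hb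
      simp only [mem_filter, decide_eq_false_iff_not] at ha hb ⊢
      exact ⟨h a ha.1 b hb.1, fun h1 => ha.2 (mem_inter.1 h1).1⟩
    · right; left
      intro a ha b hb
      simp only [mem_filter, decide_eq_false_iff_not] at ha hb ⊢
      refine ⟨h a ha.1 b hb.1, fun h1 => ?_⟩
      rcases mem_union.1 h1 with h1 | h1
      · exact ha.2 h1
      · exact hb.2 h1
    · right; right
      intro a ha b hb c hc
      simp only [mem_filter, decide_eq_false_iff_not] at ha hb hc ⊢
      refine ⟨h a ha.1 b hb.1 c hc.1, ?_⟩
      simp only [mem_union, mem_inter]; tauto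
  · rcases h with h | h | h
    · left
      intro a ha b hb
      simp only [mem_filter, decide_eq_true_eq] at ha hb ⊢
      exact ⟨h a ha.1 b hb.1, mem_inter.2 ⟨ha.2, hb.2⟩⟩
    · right; left
      intro a ha b hb
      simp only [mem_filter, decide_eq_true_eq] at ha hb ⊢
      exact ⟨h a ha.1 b hb.1, mem_union_left _ ha.2⟩
    · right; right
      intro a ha b hb c hc
      simp only [mem_filter, decide_eq_true_eq] at ha hb hc ⊢
      refine ⟨h a ha.1 b hb.1 c hc.1, ?_⟩
      simp only [mem_union, mem_inter]; tauto

lemma sp_split (q : ℕ) (A : Finset (Finset ι)) (i : ι) :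
    sp q (A.filter fun a => (decide (i ∈ a)) = true) +
      sp q (A.filter fun a => (decide (i ∈ a)) = false) ≤ sp q A := by
  unfold sp
  rw [← card_union_of_disjoint]
  · apply card_le_card
    intro p hp
    simp only [mem_union, mem_filter, mem_product] at hp ⊢
    tauto
  · rw [Finset.disjoint_left]
    intro p hp hp'
    simp only [mem_filter, mem_product] at hp hp'
    have h1 := hp.1.1.2
    have h2 := hp'.1.1.2
    rw [h1] at h2
    cases h2

/-- the main counting lemma -/
lemma count [Fintype ι] {q d : ℕ} (hd : Fintype.card ι < q * (d + 1)) (J : Finset ι) :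
    ∀ A : Finset (Finset ι), Tame3 A →
      (∀ a ∈ A, ∀ b ∈ A, ∀ i, i ∉ J → (i ∈ a ↔ i ∈ b)) →
      A.card ≤ Mb (Fintype.card ι) d + J.card * (Mb (Fintype.card ι) d * sp q A) := by
  set M := Mb (Fintype.card ι) d with hM
  have hM1 : 1 ≤ M := Mb_pos _ _
  induction J using Finset.induction_on with
  | empty =>
    intro A _ h
    have : A.card ≤ 1 := by
      rw [card_le_one]
      intro a ha b hb
      ext i
      exact h a ha b hb i (notMem_empty i)
    simp only [card_empty, Nat.zero_mul, Nat.add_zero]
    omega
  | insert i J hi ih =>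
    intro A hA h
    by_cases hc : A.card ≤ M
    · exact hc.trans (Nat.le_add_right _ _)
    · have hsp : 1 ≤ sp q A := by
        by_contra hcon
        have h0 : sp q A = 0 := by omega
        apply hc
        refine far_card hA ?_ hd
        intro a ha b hb hab
        by_contra hlt
        unfold sp at h0
        rw [card_eq_zero] at h0
        have : (a, b) ∈ (A ×ˢ A).filter fun p => p.1 ≠ p.2 ∧ (symmDiff p.1 p.2).card < q := by
          simp only [mem_filter, mem_product]
          exact ⟨⟨ha, hb⟩, hab, by omega⟩
        rw [h0] at this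
        exact notMem_empty _ this
      have hsub : ∀ p : Bool, (A.filter fun a => (decide (i ∈ a)) = p).card ≤
          M + J.card * (M * sp q (A.filter fun a => (decide (i ∈ a)) = p)) := by
        intro p
        refine ih _ (tame_filter hA i p) ?_
        intro a ha b hb j hj
        rw [mem_filter] at ha hb
        by_cases hij : j = i
        · subst hij
          have h1 : decide (j ∈ a) = decide (j ∈ b) := ha.2.trans hb.2.symm
          simpa using h1
        · refine h a ha.1 b hb.1 j ?_
          rw [mem_insert]; tauto
      have h1 := hsub true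
      have h2 := hsub false
      have h3 := sp_split q A i
      have h4 : A.card = (A.filter fun a => (decide (i ∈ a)) = true).card +
          (A.filter fun a => (decide (i ∈ a)) = false).card := by
        rw [← card_filter_add_card_filter_not (s := A) (p := fun a => (decide (i ∈ a)) = true)]
        congr 2
        ext a
        simp
      rw [card_insert_of_notMem hi]
      set x := sp q (A.filter fun a => (decide (i ∈ a)) = true)
      set y := sp q (A.filter fun a => (decide (i ∈ a)) = false)
      calc A.card ≤ (M + J.card * (M * x)) + (M + J.card * (M * y)) := by omega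
        _ = M + M + J.card * (M * (x + y)) := by ring
        _ ≤ M + M * sp q A + J.card * (M * sp q A) := by
            have e1 : M * (x + y) ≤ M * sp q A := Nat.mul_le_mul_left _ h3
            have e2 : J.card * (M * (x + y)) ≤ J.card * (M * sp q A) :=
              Nat.mul_le_mul_left _ e1
            have e3 : M * 1 ≤ M * sp q A := Nat.mul_le_mul_left _ hsp
            omega
        _ = M + (J.card + 1) * (M * sp q A) := by ring

end Pool.Agent.Helper54.Clo
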