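import Pool.Agent.Helper54.Clo.Num

set_option autoImplicit false

/-!
# Graphs without 4-cycles whose neighbourhoods are unions of few tame families
-/

namespace Pool.Agent.Helper54.Clo

open Finset

/-- The degree sum of a graph without 4-cycles whose neighbourhoods are unions of `L` families of names,
each closed under intersection, union or majority. -/
lemma graph_bound {V ι : Type*} [Fintype V] [DecidableEq V] [Fintype ι] [DecidableEq ι]
    (N : V → Finset V) (lab : V → Finset ι) (hlab : Function.Injective lab)
    (h4 : ∀ a b, a ≠ b → ∀ x y, a ∈ N x → b ∈ N x → a ∈ N y → b ∈ N y → x = y)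
    (L q : ℕ) (hq : 1 ≤ q)
    (P : V → Fin L → Finset (Finset ι)) (hP : ∀ x l, Tame3 (P x l))
    (hN : ∀ x, (N x).image lab = univ.biUnion (P x)) :
    ∑ x, (N x).card ≤ L * (Fintype.card V * Phi (Fintype.card ι) q) := by
  set m := Fintype.card ι with hm
  set M := Mb m (m / q) with hM
  have hd : m < q * (m / q + 1) := by
    have := Nat.lt_mul_div_succ m (show 0 < q by omega)
    simpa using this
  -- short pairs
  have hshort : ∑ x, sp q ((N x).image lab) ≤ Fintype.card V * Wb m q := by
    let R : V → Finset (V × V) := fun x => ((N x) ×ˢ (N x)).filter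
      fun p => p.1 ≠ p.2 ∧ (symmDiff (lab p.1) (lab p.2)).card < q
    have h1 : ∀ x, sp q ((N x).image lab) = (R x).card := by
      intro x
      unfold sp
      have : ((N x).image lab ×ˢ (N x).image lab).filter
          (fun p => p.1 ≠ p.2 ∧ (symmDiff p.1 p.2).card < q) =
          (R x).image (Prod.map lab lab) := by
        ext ⟨s, t⟩
        simp only [mem_filter, mem_product, mem_image, R, Prod.map, Prod.exists, Prod.mk.injEq]
        constructor
        · rintro ⟨⟨⟨a, ha, rfl⟩, ⟨b, hb, rfl⟩⟩, h1, h2⟩
          exact ⟨a, b, ⟨⟨ha, hb⟩, fun h => h1 (by rw [h]), h2⟩, rfl, rfl⟩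
        · rintro ⟨a, b, ⟨⟨ha, hb⟩, h1, h2⟩, rfl, rfl⟩
          exact ⟨⟨⟨a, ha, rfl⟩, ⟨b, hb, rfl⟩⟩, fun h => h1 (hlab h), h2⟩
      rw [this, card_image_of_injective _ (hlab.prodMap hlab)]
    have h2 : ∑ x, (R x).card = (univ.biUnion R).card := by
      rw [card_biUnion]
      intro x _ y _ hxy
      show Disjoint (R x) (R y)
      rw [Finset.disjoint_left]
      rintro ⟨a, b⟩ hx hy
      simp only [R, mem_filter, mem_product] at hx hy
      exact hxy (h4 a b hx.2.1 x y hx.1.1 hx.1.2 hy.1.1 hy.1.2)
    have h3 : (univ.biUnion R) ⊆ univ.biUnion fun a : V =>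
        (univ.filter fun b : V => (symmDiff (lab a) (lab b)).card < q).image fun b => (a, b) := by
      intro p hp
      simp only [mem_biUnion, mem_univ, true_and, R, mem_filter, mem_product] at hp
      obtain ⟨x, -, -, hp⟩ := hp
      simp only [mem_biUnion, mem_univ, true_and, mem_image, mem_filter]
      exact ⟨p.1, p.2, hp, rfl⟩
    have h5 : ∀ a : V, ((univ.filter fun b : V => (symmDiff (lab a) (lab b)).card < q).image
        fun b => (a, b)).card ≤ Wb m q := by
      intro a
      refine card_image_le.trans ?_
      have h6 : (univ.filter fun b : V => (symmDiff (lab a) (lab b)).card < q).card ≤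
          ((range q).biUnion fun k => (univ : Finset ι).powersetCard k).card := by
        refine card_le_card_of_injOn (fun b => symmDiff (lab a) (lab b)) ?_ ?_
        · intro b hb
          simp only [coe_filter, mem_univ, true_and, Set.mem_ofPred_eq] at hb
          simp only [coe_biUnion, Set.mem_iUnion, mem_coe, mem_range, mem_powersetCard,
            subset_univ, true_and, exists_prop]
          exact ⟨_, hb, rfl⟩
        · intro b _ c _ hbc
          exact hlab (symmDiff_right_injective (lab a) hbc)
      refine h6.trans (card_biUnion_le.trans ?_)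
      unfold Wb
      apply le_of_eq
      apply sum_congr rfl
      intro k _
      rw [card_powersetCard, card_univ]
    calc ∑ x, sp q ((N x).image lab) = ∑ x, (R x).card := sum_congr rfl fun x _ => h1 x
      _ = (univ.biUnion R).card := h2
      _ ≤ _ := card_le_card h3
      _ ≤ ∑ a : V, ((univ.filter fun b : V => (symmDiff (lab a) (lab b)).card < q).image
        fun b => (a, b)).card := card_biUnion_le
      _ ≤ ∑ _a : V, Wb m q := sum_le_sum fun a _ => h5 a
      _ = Fintype.card V * Wb m q := by simp
  have hdeg : ∀ x, (N x).card ≤ L * (M + m * (M * sp q ((N x).image lab))) := by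
    intro x
    have h1 : (N x).card = (univ.biUnion (P x)).card := by
      rw [← hN x, card_image_of_injective _ hlab]
    rw [h1]
    refine card_biUnion_le.trans ?_
    have h2 : ∀ l : Fin L, (P x l).card ≤ M + m * (M * sp q ((N x).image lab)) := by
      intro l
      have h3 := count (q := q) (d := m / q) hd univ (P x l) (hP x l)
        (fun _ _ _ _ i hi => absurd (mem_univ i) hi)
      rw [card_univ] at h3
      refine h3.trans ?_
      apply Nat.add_le_add_left
      apply Nat.mul_le_mul_left
      apply Nat.mul_le_mul_left
      unfold sp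
      apply card_le_card
      apply filter_subset_filter
      have : P x l ⊆ (N x).image lab := by
        rw [hN x]; exact subset_biUnion_of_mem _ (mem_univ l)
      exact product_subset_product this this
    calc ∑ l, (P x l).card ≤ ∑ _l : Fin L, (M + m * (M * sp q ((N x).image lab))) :=
          sum_le_sum fun l _ => h2 l
      _ = L * (M + m * (M * sp q ((N x).image lab))) := by simp
  calc ∑ x, (N x).card ≤ ∑ x, L * (M + m * (M * sp q ((N x).image lab))) :=
        sum_le_sum fun x _ => hdeg x
    _ = L * (Fintype.card V * M + m * (M * ∑ x, sp q ((N x).image lab))) := by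
        rw [← mul_sum, sum_add_distrib]
        congr 2
        · simp
        · rw [← mul_sum, ← mul_sum]
    _ ≤ L * (Fintype.card V * M + m * (M * (Fintype.card V * Wb m q))) := by
        gcongr
    _ = L * (Fintype.card V * Phi m q) := by
        unfold Phi
        rw [← hM]; ring

end Pool.Agent.Helper54.Clo
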