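import Pool.Agent.Helper54.Clo.Op

set_option autoImplicit false

/-!
# The bound for graphs whose neighbourhoods are unions of few closed sets
-/

namespace Pool.Agent.Helper54.Clo

open Finset

/-- `S` is the union of `L` sets which are closed under `f`. -/
def UnionOfClosed {k m : ℕ} (f : (Fin k → Bool) → Bool) (L : ℕ) (S : Set (Fin m → Bool)) : Prop :=
  ∃ P : Fin L → Set (Fin m → Bool), (∀ l, Closed f (P l)) ∧ S = ⋃ l, P l

/-- the support of a string of bits -/
def supp {m : ℕ} (s : Fin m → Bool) : Finset (Fin m) := univ.filter fun i => s i = true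

lemma mem_supp {m : ℕ} (s : Fin m → Bool) (i : Fin m) : i ∈ supp s ↔ s i = true := by
  simp [supp]

lemma supp_injective {m : ℕ} : Function.Injective (supp : (Fin m → Bool) → Finset (Fin m)) := by
  intro s t h
  funext i
  have : i ∈ supp s ↔ i ∈ supp t := by rw [h]
  rw [mem_supp, mem_supp] at this
  cases h1 : s i <;> cases h2 : t i <;> simp_all

open Classical in
/-- the family of the supports of the members of a set of strings -/
noncomputable def fam {m : ℕ} (S : Set (Fin m → Bool)) : Finset (Finset (Fin m)) :=
  (univ.filter fun s : Fin m → Bool => s ∈ S).image supp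

lemma mem_fam {m : ℕ} (S : Set (Fin m → Bool)) (A : Finset (Fin m)) :
    A ∈ fam S ↔ ∃ s ∈ S, supp s = A := by
  classical
  simp [fam]

lemma fam_tame {m : ℕ} {S : Set (Fin m → Bool)} (h : Three S) : Tame3 (fam S) := by
  rcases h with h | h | h
  · left
    intro a ha b hb
    rw [mem_fam] at *
    obtain ⟨s, hs, rfl⟩ := ha
    obtain ⟨t, ht, rfl⟩ := hb
    refine ⟨_, h s hs t ht, ?_⟩
    ext i
    simp [mem_supp]
  · right; left
    intro a ha b hb
    rw [mem_fam] at *
    obtain ⟨s, hs, rfl⟩ := ha
    obtain ⟨t, ht, rfl⟩ := hb
    refine ⟨_, h s hs t ht, ?_⟩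
    ext i
    simp [mem_supp]
  · right; right
    intro a ha b hb c hc
    rw [mem_fam] at *
    obtain ⟨s, hs, rfl⟩ := ha
    obtain ⟨t, ht, rfl⟩ := hb
    obtain ⟨u, hu, rfl⟩ := hc
    refine ⟨_, h s hs t ht u hu, ?_⟩
    ext i
    simp [mem_supp, or_assoc]

/-- a graph of girth greater than four has no two vertices with two common neighbours -/
lemma no_four {V : Type*} (G : SimpleGraph V) (hg : 4 < G.egirth) :
    ∀ a b, a ≠ b → ∀ x y, G.Adj x a → G.Adj x b → G.Adj y a → G.Adj y b → x = y := by
  intro a b hab x y hxa hxb hya hyb
  by_contra hxy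
  have hc : (SimpleGraph.Walk.cons hxa (SimpleGraph.Walk.cons hya.symm
      (SimpleGraph.Walk.cons hyb (SimpleGraph.Walk.cons hxb.symm SimpleGraph.Walk.nil)))).IsCycle := by
    rw [SimpleGraph.Walk.cons_isCycle_iff]
    constructor
    · simp only [SimpleGraph.Walk.cons_isPath_iff, SimpleGraph.Walk.support_cons,
        SimpleGraph.Walk.support_nil, List.mem_cons, List.not_mem_nil, or_false,
        SimpleGraph.Walk.isPath_iff_nil, SimpleGraph.Walk.nil_nil, not_or]
      refine ⟨⟨⟨trivial, hxb.ne'⟩, hyb.ne, fun h => hxy h.symm⟩, hya.ne', hab, hxa.ne'⟩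
    · simp only [SimpleGraph.Walk.edges_cons, SimpleGraph.Walk.edges_nil, List.mem_cons,
        List.not_mem_nil, or_false, Sym2.eq_iff, not_or, not_and]
      refine ⟨⟨fun h => absurd h hxa.ne, fun h => absurd h hxy⟩,
        ⟨fun h => absurd h hxy, fun h => absurd h hxb.ne⟩,
        ⟨fun h => absurd h hxb.ne, fun _ h => absurd h hab⟩⟩
  have h1 := SimpleGraph.le_egirth.1 (show (5 : ℕ∞) ≤ G.egirth from Order.add_one_le_of_lt hg) _ _ hc
  simp only [SimpleGraph.Walk.length_cons, SimpleGraph.Walk.length_nil] at h1
  norm_num at h1

lemma phi_pos (m q : ℕ) : 1 ≤ Phi m q := by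
  unfold Phi
  have := Mb_pos m (m / q)
  nlinarith [Nat.zero_le (m * Wb m q)]

/-- **The bound.** -/
lemma bound {k m : ℕ} (f : (Fin k → Bool) → Bool) (hf : ¬ OddSum f) {V : Type*} [Fintype V]
    (lab : V → Fin m → Bool) (hlab : Function.Injective lab) (G : SimpleGraph V) (L q : ℕ)
    (hq : 1 ≤ q) (hN : ∀ x, UnionOfClosed f L (lab '' G.neighborSet x)) (hg : 4 < G.egirth) :
    2 * Nat.card G.edgeSet ≤ L * (Fintype.card V * Phi m q) := by
  classical
  have h4 := no_four G hg
  have hcard : 2 * Nat.card G.edgeSet = ∑ x, (G.neighborFinset x).card := by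
    rw [Nat.card_eq_fintype_card, ← SimpleGraph.edgeFinset_card,
      ← G.sum_degrees_eq_twice_card_edges]
    rfl
  by_cases h1 : f (fun _ => true) = true
  · by_cases h0 : f (fun _ => false) = false
    · -- idempotent operations
      choose P hP using hN
      rw [hcard]
      have h := graph_bound (fun x => G.neighborFinset x) (fun v => supp (lab v))
        (supp_injective.comp hlab)
        (fun a b hab x y hxa hxb hya hyb => h4 a b hab x y (by simpa using hxa)
          (by simpa using hxb) (by simpa using hya) (by simpa using hyb)) L q hq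
        (fun x l => fam (P x l)) (fun x l => fam_tame (three_of_not_oddSum h1 h0 hf ((hP x).1 l)))
        (by
          intro x
          ext A
          simp only [mem_image, SimpleGraph.mem_neighborFinset, mem_biUnion, mem_univ, true_and,
            mem_fam]
          constructor
          · rintro ⟨v, hv, rfl⟩
            have : lab v ∈ lab '' G.neighborSet x := ⟨v, hv, rfl⟩
            rw [(hP x).2, Set.mem_iUnion] at this
            obtain ⟨l, hl⟩ := this
            exact ⟨l, _, hl, rfl⟩
          · rintro ⟨l, s, hs, rfl⟩
            have : s ∈ lab '' G.neighborSet x := by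
              rw [(hP x).2, Set.mem_iUnion]; exact ⟨l, hs⟩
            obtain ⟨v, hv, rfl⟩ := this
            exact ⟨v, hv, rfl⟩)
      simpa using h
    · -- the constant true
      have h0' : f (fun _ => false) = true := by simpa using h0
      have hempty : ∀ x, (G.neighborFinset x).card = 0 := by
        have key : ∀ x, (G.neighborSet x).Nonempty → (fun _ => true) ∈ lab '' G.neighborSet x := by
          rintro x ⟨y, hy⟩
          obtain ⟨P, hP, hPu⟩ := hN x
          have hy' : lab y ∈ lab '' G.neighborSet x := ⟨y, hy, rfl⟩
          rw [hPu, Set.mem_iUnion] at hy'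
          obtain ⟨l, hl⟩ := hy'
          have := hP l (fun _ => lab y) (fun _ => hl)
          rw [hPu, Set.mem_iUnion]
          refine ⟨l, ?_⟩
          convert this using 2 with i
          cases lab y i
          · exact h0'.symm
          · exact h1.symm
        intro x
        rw [card_eq_zero, eq_empty_iff_forall_notMem]
        intro y hy
        rw [SimpleGraph.mem_neighborFinset] at hy
        obtain ⟨v, hv, hv2⟩ := key x ⟨y, hy⟩
        obtain ⟨w, hw, hw2⟩ := key v ⟨x, G.adj_symm hv⟩
        have : w = v := hlab (hw2.trans hv2.symm)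
        subst this
        exact G.loopless.irrefl _ hw
      rw [hcard, sum_congr rfl fun x _ => hempty x]
      simp
  · have h1' : f (fun _ => true) = false := by simpa using h1
    by_cases h0 : f (fun _ => false) = false
    · -- the constant false
      have hempty : ∀ x, (G.neighborFinset x).card = 0 := by
        have key : ∀ x, (G.neighborSet x).Nonempty → (fun _ => false) ∈ lab '' G.neighborSet x := by
          rintro x ⟨y, hy⟩
          obtain ⟨P, hP, hPu⟩ := hN x
          have hy' : lab y ∈ lab '' G.neighborSet x := ⟨y, hy, rfl⟩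
          rw [hPu, Set.mem_iUnion] at hy'
          obtain ⟨l, hl⟩ := hy'
          have := hP l (fun _ => lab y) (fun _ => hl)
          rw [hPu, Set.mem_iUnion]
          refine ⟨l, ?_⟩
          convert this using 2 with i
          cases lab y i
          · exact h0.symm
          · exact h1'.symm
        intro x
        rw [card_eq_zero, eq_empty_iff_forall_notMem]
        intro y hy
        rw [SimpleGraph.mem_neighborFinset] at hy
        obtain ⟨v, hv, hv2⟩ := key x ⟨y, hy⟩
        obtain ⟨w, hw, hw2⟩ := key v ⟨x, G.adj_symm hv⟩
        have : w = v := hlab (hw2.trans hv2.symm)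
        subst this
        exact G.loopless.irrefl _ hw
      rw [hcard, sum_congr rfl fun x _ => hempty x]
      simp
    · -- the complement
      have h0' : f (fun _ => false) = true := by simpa using h0
      have key : ∀ x y, G.Adj x y → ∃ z, z ≠ y ∧ G.Adj x z ∧ lab z = fun i => !lab y i := by
        intro x y hy
        obtain ⟨P, hP, hPu⟩ := hN x
        have hy' : lab y ∈ lab '' G.neighborSet x := ⟨y, hy, rfl⟩
        rw [hPu, Set.mem_iUnion] at hy'
        obtain ⟨l, hl⟩ := hy'
        have := hP l (fun _ => lab y) (fun _ => hl)
        have h2 : (fun i => !lab y i) ∈ lab '' G.neighborSet x := by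
          rw [hPu, Set.mem_iUnion]
          refine ⟨l, ?_⟩
          convert this using 2 with i
          cases lab y i
          · exact h0'.symm
          · exact h1'.symm
        obtain ⟨z, hz, hz2⟩ := h2
        refine ⟨z, ?_, hz, hz2⟩
        rintro rfl
        have hm : ∀ i : Fin m, False := by
          intro i
          have := congrFun hz2 i
          cases h3 : lab z i <;> simp [h3] at this
        have : lab x = lab z := by
          funext i; exact (hm i).elim
        exact hy.ne (hlab this)
      have hdeg : ∀ y, (G.neighborFinset y).card ≤ 1 := by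
        intro y
        rw [card_le_one]
        intro x hx x' hx'
        rw [SimpleGraph.mem_neighborFinset] at hx hx'
        obtain ⟨z, hzy, hz, hz2⟩ := key x y hx.symm
        obtain ⟨z', hzy', hz', hz2'⟩ := key x' y hx'.symm
        have : z = z' := hlab (hz2.trans hz2'.symm)
        subst this
        exact h4 z y hzy x x' hz hx.symm hz' hx'.symm
      rw [hcard]
      rcases Nat.eq_zero_or_pos L with hL | hL
      · subst hL
        have : ∀ x, (G.neighborFinset x).card = 0 := by
          intro x
          rw [card_eq_zero, eq_empty_iff_forall_notMem]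
          intro y hy
          rw [SimpleGraph.mem_neighborFinset] at hy
          obtain ⟨P, hP, hPu⟩ := hN x
          have hy' : lab y ∈ lab '' G.neighborSet x := ⟨y, hy, rfl⟩
          rw [hPu, Set.mem_iUnion] at hy'
          obtain ⟨l, -⟩ := hy'
          exact l.elim0
        rw [sum_congr rfl fun x _ => this x]; simp
      · calc ∑ x, (G.neighborFinset x).card ≤ ∑ _x : V, 1 := sum_le_sum fun x _ => hdeg x
          _ = 1 * (Fintype.card V * 1) := by simp
          _ ≤ L * (Fintype.card V * Phi m q) := by
            have := phi_pos m q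
            gcongr
            omega

end Pool.Agent.Helper54.Clo
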