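import Pool.Agent.Helper54.Clo.Fam

set_option autoImplicit false

/-!
# Numerical bounds
-/

namespace Pool.Agent.Helper54.Clo

open Finset

/-- number of sets with less than `q` elements -/
def Wb (m q : ℕ) : ℕ := ∑ k ∈ range q, m.choose k

lemma Mb_le (m d : ℕ) (x : ℝ) (hx : 0 < x) (hx1 : x ≤ 1) :
    (Mb m d : ℝ) * x ^ d ≤ (1 + x) ^ m := by
  unfold Mb
  push_cast
  rw [sum_mul]
  have h1 : ∀ k ∈ Iic d, (m.choose k : ℝ) * x ^ d ≤ (m.choose k : ℝ) * x ^ k := by
    intro k hk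
    apply mul_le_mul_of_nonneg_left _ (Nat.cast_nonneg _)
    exact pow_le_pow_of_le_one hx.le hx1 (mem_Iic.1 hk)
  refine (sum_le_sum h1).trans ?_
  have h2 : (1 + x) ^ m = ∑ k ∈ range (m + 1), (m.choose k : ℝ) * x ^ k := by
    rw [add_comm, add_pow]
    apply sum_congr rfl
    intro k _
    rw [one_pow]; ring
  rw [h2]
  have h3 : ∑ k ∈ Iic d, (m.choose k : ℝ) * x ^ k =
      ∑ k ∈ (Iic d).filter (fun k => k ∈ range (m + 1)), (m.choose k : ℝ) * x ^ k := by
    rw [sum_filter]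
    apply sum_congr rfl
    intro k _
    split_ifs with h
    · rfl
    · rw [mem_range] at h
      rw [Nat.choose_eq_zero_of_lt (by omega)]; simp
  rw [h3]
  apply sum_le_sum_of_subset_of_nonneg
  · intro k hk; exact (mem_filter.1 hk).2
  · intro k _ _; positivity

lemma Wb_le (m q : ℕ) : Wb m q ≤ q * (m + 1) ^ q := by
  unfold Wb
  have h : ∀ k ∈ range q, m.choose k ≤ (m + 1) ^ q := by
    intro k hk
    calc m.choose k ≤ m ^ k := Nat.choose_le_pow m k
      _ ≤ (m + 1) ^ k := Nat.pow_le_pow_left (by omega) k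
      _ ≤ (m + 1) ^ q := Nat.pow_le_pow_right (by omega) (mem_range.1 hk).le
  calc ∑ k ∈ range q, m.choose k ≤ ∑ _k ∈ range q, (m + 1) ^ q := sum_le_sum h
    _ = q * (m + 1) ^ q := by simp

lemma poly_le (p : ℕ) (δ : ℝ) (hδ : 0 < δ) :
    ∃ K : ℝ, 1 ≤ K ∧ ∀ m : ℕ, ((m : ℝ) + 1) ^ p ≤ K * Real.exp (δ * m) := by
  rcases Nat.eq_zero_or_pos p with hp | hp
  · subst hp
    refine ⟨1, le_refl _, fun m => ?_⟩
    rw [pow_zero, one_mul]
    exact Real.one_le_exp (by positivity)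
  · have hp' : (0 : ℝ) < p := by exact_mod_cast hp
    set B : ℝ := max 1 (p / δ) with hB
    have hB1 : 1 ≤ B := le_max_left _ _
    refine ⟨B ^ p, one_le_pow₀ hB1, fun m => ?_⟩
    have h1 : (m : ℝ) + 1 ≤ B * Real.exp (δ * m / p) := by
      have h2 : δ * m / p + 1 ≤ Real.exp (δ * m / p) := Real.add_one_le_exp _
      have h3 : (m : ℝ) + 1 ≤ B * (δ * m / p + 1) := by
        have h4 : p / δ ≤ B := le_max_right _ _
        have h5 : (m : ℝ) = p / δ * (δ * m / p) := by field_simp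
        have h6 : (p / δ) * (δ * m / p) ≤ B * (δ * m / p) :=
          mul_le_mul_of_nonneg_right h4 (by positivity)
        nlinarith
      exact h3.trans (mul_le_mul_of_nonneg_left h2 (by linarith))
    calc ((m : ℝ) + 1) ^ p ≤ (B * Real.exp (δ * m / p)) ^ p :=
          pow_le_pow_left₀ (by positivity) h1 p
      _ = B ^ p * Real.exp (δ * m) := by
          rw [mul_pow, ← Real.exp_nat_mul]
          congr 2
          field_simp

/-- the number which occurs in the bound for graphs -/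
def Phi (m q : ℕ) : ℕ := Mb m (m / q) * (1 + m * Wb m q)

lemma phi_le (ε : ℝ) (hε : 0 < ε) :
    ∃ (q : ℕ) (K : ℝ), 1 ≤ q ∧ 1 ≤ K ∧ ∀ m : ℕ, (Phi m q : ℝ) ≤ K * Real.exp (ε * m) := by
  set x : ℝ := min 1 (ε / 3) with hx
  have hx0 : 0 < x := lt_min one_pos (by positivity)
  have hx1 : x ≤ 1 := min_le_left _ _
  have hxe : x ≤ ε / 3 := min_le_right _ _
  set l : ℝ := Real.log (1 / x) with hl
  have hl0 : 0 ≤ l := Real.log_nonneg (by rw [le_div_iff₀ hx0]; linarith)
  obtain ⟨q, hq⟩ := exists_nat_ge (max 1 (3 * l / ε))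
  have hq1 : (1 : ℝ) ≤ q := (le_max_left _ _).trans hq
  have hq1' : 1 ≤ q := by exact_mod_cast hq1
  have hq2 : 3 * l / ε ≤ q := (le_max_right _ _).trans hq
  obtain ⟨K, hK1, hK⟩ := poly_le (q + 1) (ε / 3) (by positivity)
  refine ⟨q, (q + 1) * K, hq1', by nlinarith, fun m => ?_⟩
  -- the first factor
  have h1 : (Mb m (m / q) : ℝ) ≤ Real.exp (ε / 3 * m) * Real.exp (ε / 3 * m) := by
    have h2 := Mb_le m (m / q) x hx0 hx1
    have h3 : (1 + x) ^ m ≤ Real.exp (ε / 3 * m) := by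
      calc (1 + x) ^ m ≤ (Real.exp x) ^ m :=
            pow_le_pow_left₀ (by positivity) (by have := Real.add_one_le_exp x; linarith) m
        _ = Real.exp (m * x) := by rw [← Real.exp_nat_mul]
        _ ≤ Real.exp (ε / 3 * m) := Real.exp_le_exp.2 (by
            have : (0 : ℝ) ≤ m := Nat.cast_nonneg m
            nlinarith)
    have h4 : 1 ≤ x ^ (m / q) * Real.exp (ε / 3 * m) := by
      have h5 : x = Real.exp (-l) := by
        rw [hl, Real.exp_neg, Real.exp_log (by positivity)]; simp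
      rw [h5, ← Real.exp_nat_mul, ← Real.exp_add]
      apply Real.one_le_exp
      have h6 : ((m / q : ℕ) : ℝ) ≤ m / q := Nat.cast_div_le
      have h7 : ((m / q : ℕ) : ℝ) * l ≤ m / q * l := mul_le_mul_of_nonneg_right h6 hl0
      have h8 : (m : ℝ) / q * l ≤ ε / 3 * m := by
        have hq0 : (0 : ℝ) < q := by linarith
        have h9 : 3 * l ≤ q * ε := by rwa [div_le_iff₀ hε] at hq2
        rw [div_mul_eq_mul_div, div_le_iff₀ hq0]
        have : (0 : ℝ) ≤ m := Nat.cast_nonneg m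
        nlinarith
      linarith
    have hM0 : (0 : ℝ) ≤ Mb m (m / q) := Nat.cast_nonneg _
    calc (Mb m (m / q) : ℝ) ≤ Mb m (m / q) * (x ^ (m / q) * Real.exp (ε / 3 * m)) :=
          le_mul_of_one_le_right hM0 h4
      _ = (Mb m (m / q) * x ^ (m / q)) * Real.exp (ε / 3 * m) := by ring
      _ ≤ Real.exp (ε / 3 * m) * Real.exp (ε / 3 * m) :=
          mul_le_mul_of_nonneg_right (h2.trans h3) (Real.exp_nonneg _)
  have h2 : (1 + (m : ℝ) * Wb m q) ≤ (q + 1) * (K * Real.exp (ε / 3 * m)) := by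
    have h3 : (Wb m q : ℝ) ≤ q * ((m : ℝ) + 1) ^ q := by exact_mod_cast Wb_le m q
    have hm0 : (0 : ℝ) ≤ m := Nat.cast_nonneg m
    have h4 : (1 : ℝ) ≤ ((m : ℝ) + 1) ^ (q + 1) := one_le_pow₀ (by linarith)
    have h5 : (m : ℝ) * (q * ((m : ℝ) + 1) ^ q) ≤ q * ((m : ℝ) + 1) ^ (q + 1) := by
      rw [pow_succ]
      have : (0 : ℝ) ≤ q * ((m : ℝ) + 1) ^ q := by positivity
      nlinarith
    have h6 := hK m
    calc (1 + (m : ℝ) * Wb m q) ≤ 1 + m * (q * ((m : ℝ) + 1) ^ q) := by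
          have := mul_le_mul_of_nonneg_left h3 hm0
          linarith
      _ ≤ (q + 1) * ((m : ℝ) + 1) ^ (q + 1) := by nlinarith
      _ ≤ (q + 1) * (K * Real.exp (ε / 3 * m)) :=
          mul_le_mul_of_nonneg_left h6 (by positivity)
  unfold Phi
  push_cast
  calc (Mb m (m / q) : ℝ) * (1 + m * Wb m q)
      ≤ (Real.exp (ε / 3 * m) * Real.exp (ε / 3 * m)) * ((q + 1) * (K * Real.exp (ε / 3 * m))) :=
        mul_le_mul h1 h2 (by positivity) (by positivity)
    _ = (q + 1) * K * (Real.exp (ε / 3 * m) * Real.exp (ε / 3 * m) * Real.exp (ε / 3 * m)) := by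
        ring
    _ = (q + 1) * K * Real.exp (ε * m) := by
        rw [← Real.exp_add, ← Real.exp_add]; congr 2; ring

end Pool.Agent.Helper54.Clo
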