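import Pool.Agent.Helper54.Clo.Graph

set_option autoImplicit false

/-!
# Boolean operations: an operation which is not the sum of an odd number of its arguments gives
# intersection, union, majority, a constant or the complement
-/

namespace Pool.Agent.Helper54.Clo

open Finset

/-- `S` is closed under the coordinatewise application of the Boolean operation `f` of arity `k`. -/
def Closed {k m : ℕ} (f : (Fin k → Bool) → Bool) (S : Set (Fin m → Bool)) : Prop :=
  ∀ s : Fin k → Fin m → Bool, (∀ j, s j ∈ S) → (fun i => f fun j => s j i) ∈ S

/-- `f` is the sum modulo two of an odd number of its arguments. -/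
def OddSum {k : ℕ} (f : (Fin k → Bool) → Bool) : Prop :=
  ∃ I : Finset (Fin k), Odd I.card ∧ ∀ x, f x = true ↔ Odd (I.filter fun j => x j = true).card

/-- closed under conjunction, disjunction or majority of names -/
def Three {m : ℕ} (S : Set (Fin m → Bool)) : Prop :=
  (∀ a ∈ S, ∀ b ∈ S, (fun i => a i && b i) ∈ S) ∨
  (∀ a ∈ S, ∀ b ∈ S, (fun i => a i || b i) ∈ S) ∨
  (∀ a ∈ S, ∀ b ∈ S, ∀ c ∈ S, (fun i => (a i && b i) || (b i && c i) || (a i && c i)) ∈ S)

variable {k m : ℕ} {f : (Fin k → Bool) → Bool}

/-- the binary operation obtained from a set of arguments -/
lemma bin {S : Set (Fin m → Bool)} (h : Closed f S) (A : Fin k → Bool) {a b : Fin m → Bool}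
    (ha : a ∈ S) (hb : b ∈ S) : (fun i => f fun j => if A j then a i else b i) ∈ S := by
  have := h (fun j => if A j then a else b) (fun j => by
    show (if A j = true then a else b) ∈ S
    split_ifs <;> assumption)
  convert this using 4 with i j
  split_ifs <;> rfl

/-- the ternary operation obtained from two sets of arguments -/
lemma ter {S : Set (Fin m → Bool)} (h : Closed f S) (A B : Fin k → Bool) {a b c : Fin m → Bool}
    (ha : a ∈ S) (hb : b ∈ S) (hc : c ∈ S) :
    (fun i => f fun j => if A j then a i else if B j then b i else c i) ∈ S := by
  have := h (fun j => if A j then a else if B j then b else c) (fun j => by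
    show (if A j = true then a else if B j = true then b else c) ∈ S
    split_ifs <;> assumption)
  convert this using 4 with i j
  split_ifs <;> rfl

/-- additive self-dual idempotent operations are odd sums -/
lemma oddSum_of_add (h1 : f (fun _ => true) = true) (h0 : f (fun _ => false) = false)
    (hadd : ∀ U : Finset (Fin k), ∀ j, j ∉ U →
      f (fun i => decide (i ∈ insert j U)) =
        xor (f fun i => decide (i ∈ U)) (f fun i => decide (i = j))) : OddSum f := by
  set I : Finset (Fin k) := univ.filter fun j => f (fun i => decide (i = j)) = true with hI
  have key : ∀ U : Finset (Fin k), f (fun i => decide (i ∈ U)) = true ↔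
      Odd (I.filter fun j => j ∈ U).card := by
    intro U
    induction U using Finset.induction_on with
    | empty =>
      simp [h0]
    | insert j U hj ih =>
      rw [hadd U j hj]
      have hfil : (I.filter fun i => i ∈ insert j U) =
          if f (fun i => decide (i = j)) = true then insert j (I.filter fun i => i ∈ U)
          else I.filter fun i => i ∈ U := by
        ext x
        split_ifs with hc
        · simp only [hI, mem_filter, mem_univ, true_and, mem_insert]
          constructor
          · rintro ⟨h2, h3 | h3⟩
            · exact Or.inl h3
            · exact Or.inr ⟨h2, h3⟩
          · rintro (h3 | ⟨h2, h3⟩)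
            · subst h3; exact ⟨hc, Or.inl rfl⟩
            · exact ⟨h2, Or.inr h3⟩
        · simp only [hI, mem_filter, mem_univ, true_and, mem_insert]
          constructor
          · rintro ⟨h2, h3 | h3⟩
            · subst h3; exact absurd h2 hc
            · exact ⟨h2, h3⟩
          · rintro ⟨h2, h3⟩
            exact ⟨h2, Or.inr h3⟩
      rw [hfil]
      split_ifs with hc
      · rw [card_insert_of_notMem (by simp [hj]), hc]
        rw [Nat.odd_add_one, ← ih]
        cases f (fun i => decide (i ∈ U)) <;> simp
      · rw [← ih]
        have hc' : f (fun i => decide (i = j)) = false := by
          cases h : f (fun i => decide (i = j))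
          · rfl
          · exact absurd h hc
        rw [hc']
        cases f (fun i => decide (i ∈ U)) <;> simp
  refine ⟨I, ?_, ?_⟩
  · have h2 := (key univ).1 (by simpa using h1)
    simpa using h2
  · intro x
    have h2 := key (univ.filter fun j => x j = true)
    have h3 : (fun i => decide (i ∈ univ.filter fun j => x j = true)) = x := by
      funext i; simp
    rw [h3] at h2
    rw [h2]
    simp

/-- the values of the operation on the union of two disjoint sets -/
lemma three_of_not_oddSum (h1 : f (fun _ => true) = true) (h0 : f (fun _ => false) = false)
    (hf : ¬ OddSum f) {S : Set (Fin m → Bool)} (h : Closed f S) : Three S := by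
  by_contra hcon
  unfold Three at hcon
  push Not at hcon
  obtain ⟨hand, hor, hmaj⟩ := hcon
  -- self-duality
  have hsd : ∀ A : Fin k → Bool, f (fun j => !A j) = !f A := by
    intro A
    by_contra hne
    have heq : f (fun j => !A j) = f A := by
      cases h2 : f (fun j => !A j) <;> cases h3 : f A <;> simp_all
    have hval : ∀ (u v : Bool), f (fun j => if A j then u else v) =
        if u = v then u else f A := by
      intro u v
      cases u <;> cases v
      · simpa using h0
      · have : (fun j => if A j = true then false else true) = fun j => !A j := by
          funext j; cases A j <;> rfl
        rw [this, heq]; rfl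
      · have : (fun j => if A j = true then true else false) = A := by
          funext j; cases A j <;> rfl
        rw [this]; rfl
      · simpa using h1
    cases hA : f A
    · obtain ⟨a, ha, b, hb, hab⟩ := hand
      apply hab
      have := bin h A ha hb
      convert this using 2 with i
      rw [hval, hA]
      cases a i <;> cases b i <;> rfl
    · obtain ⟨a, ha, b, hb, hab⟩ := hor
      apply hab
      have := bin h A ha hb
      convert this using 2 with i
      rw [hval, hA]
      cases a i <;> cases b i <;> rfl
  -- ternary minors
  have hter : ∀ A B : Fin k → Bool,
      xor (xor (f A) (f fun j => B j && !A j)) (f fun j => !A j && !B j) = true := by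
    intro A B
    by_contra hne
    obtain ⟨a, ha, b, hb, c, hc, habc⟩ := hmaj
    apply habc
    -- the values of the ternary minor
    have hval : ∀ u v w : Bool, f (fun j => if A j then u else if B j then v else w) =
        if u = v ∧ v = w then u else if v = w then (if u = true then f A else !f A)
        else if u = w then
          (if v = true then f (fun j => B j && !A j) else !f (fun j => B j && !A j))
        else (if w = true then f (fun j => !A j && !B j) else !f (fun j => !A j && !B j)) := by
      intro u v w
      cases u <;> cases v <;> cases w
      · simpa using h0
      · have : (fun j => if A j = true then false else if B j = true then false else true) =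
            fun j => !A j && !B j := by
          funext j; cases A j <;> cases B j <;> rfl
        rw [this]; rfl
      · have : (fun j => if A j = true then false else if B j = true then true else false) =
            fun j => B j && !A j := by
          funext j; cases A j <;> cases B j <;> rfl
        rw [this]; rfl
      · have : (fun j => if A j = true then false else if B j = true then true else true) =
            fun j => !A j := by
          funext j; cases A j <;> cases B j <;> rfl
        rw [this, hsd]; rfl
      · have : (fun j => if A j = true then true else if B j = true then false else false) =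
            A := by
          funext j; cases A j <;> cases B j <;> rfl
        rw [this]; rfl
      · have : (fun j => if A j = true then true else if B j = true then false else true) =
            fun j => !(B j && !A j) := by
          funext j; cases A j <;> cases B j <;> rfl
        rw [this, hsd (fun j => B j && !A j)]; rfl
      · have : (fun j => if A j = true then true else if B j = true then true else false) =
            fun j => !(!A j && !B j) := by
          funext j; cases A j <;> cases B j <;> rfl
        rw [this, hsd (fun j => !A j && !B j)]; rfl
      · simpa using h1
    obtain ⟨α, hα⟩ : ∃ α, α = f A := ⟨_, rfl⟩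
    obtain ⟨β, hβ⟩ : ∃ β, β = f (fun j => B j && !A j) := ⟨_, rfl⟩
    obtain ⟨γ, hγ⟩ : ∃ γ, γ = f (fun j => !A j && !B j) := ⟨_, rfl⟩
    rw [← hα, ← hβ, ← hγ] at hval hne
    have hw := ter h A B ha hb hc
    set w : Fin m → Bool := fun i => f fun j => if A j then a i else if B j then b i else c i
      with hwdef
    have hwi : ∀ i, w i = f fun j => if A j then a i else if B j then b i else c i := fun i => rfl
    cases α <;> cases β <;> cases γ
    · convert hw using 2 with i
      rw [hwi, hval]
      cases a i <;> cases b i <;> cases c i <;> rfl
    · exact absurd rfl hne
    · exact absurd rfl hne
    · have := ter h A B hw hb hc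
      convert this using 2 with i
      rw [hval, hwi, hval]
      cases a i <;> cases b i <;> cases c i <;> rfl
    · exact absurd rfl hne
    · have := ter h A B ha hw hc
      convert this using 2 with i
      rw [hval, hwi, hval]
      cases a i <;> cases b i <;> cases c i <;> rfl
    · have := ter h A B ha hb hw
      convert this using 2 with i
      rw [hval, hwi, hval]
      cases a i <;> cases b i <;> cases c i <;> rfl
    · exact absurd rfl hne
  -- additivity
  apply hf
  apply oddSum_of_add h1 h0
  intro U j hj
  have e1 := hter (fun i => decide (i ∈ U)) (fun i => decide (i = j))
  have e2 : (fun i => decide (i = j) && !decide (i ∈ U)) = fun i => decide (i = j) := by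
    funext i
    by_cases hij : i = j
    · subst hij; simp [hj]
    · simp [hij]
  have e3 : (fun i => !decide (i ∈ U) && !decide (i = j)) =
      fun i => !(decide (i ∈ insert j U)) := by
    funext i
    simp only [mem_insert, Bool.decide_or, Bool.not_or]
    rw [Bool.and_comm]
  rw [e2, e3, hsd (fun i => decide (i ∈ insert j U))] at e1
  revert e1
  cases f (fun i => decide (i ∈ U)) <;> cases f (fun i => decide (i = j)) <;>
    cases f (fun i => decide (i ∈ insert j U)) <;> simp

end Pool.Agent.Helper54.Clo
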